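import Pool.Agent.LibQR35.V2
import Pool.Agent.LibQR35.XL2
import Pool.Agent.LibQR35.XR
import Pool.Agent.LibQR35.LU

/-! Quadratic level repulsion, with the exponents of the GOE, for random smooth conformal
perturbations of an arbitrary metric of negative curvature. -/

open MeasureTheory Set Filter Topology BGS
open scoped unitInterval ENNReal

namespace Pool.Agent.Results.MP_a825e8_mp.QuadraticRepulsion

/-- The probability, `ξ` being uniformly distributed in the cube, that `e^(ψ + s φ_ξ) m` scaled to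
area one is a metric `m'` of negative curvature with the property `E m'`. -/
noncomputable def Pr {Γ : Type} [Group Γ] [MulAction Γ Pl] {D : Set Pl}
    (φ : (ℕ × (ℤ × ℤ) → I) → Pl → ℝ) (m : Mt Γ D) (ψ : Pl → ℝ) (s : ℝ) (E : Mt Γ D → Prop) :
    ℝ≥0∞ :=
  (Measure.infinitePi fun _ : ℕ × (ℤ × ℤ) => (volume : Measure I))
    {ξ | ∃ m' : Mt Γ D, (∃ q : ℝ, 0 < q ∧
      ∀ z, m'.1.1 z = (q * Real.exp (ψ z + s * φ ξ z)) • m.1.1 z) ∧ E m'}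

theorem result {Γ : Type} [Group Γ] [MulAction Γ Pl] {D : Set Pl} (hX : Surface Γ D)
    (a : ℕ → ℝ) (ha : ∀ B : ℕ, Tendsto (fun N : ℕ => (N : ℝ) ^ B * a N) atTop (𝓝 0)) :
    ∃ φ : (ℕ × (ℤ × ℤ) → I) → Pl → ℝ,
      (∀ ξ, φ ξ ∈ Test Γ) ∧ (∀ z, Measurable fun ξ => φ ξ z) ∧
      (∀ m : Mt Γ D, ∀ U ∈ 𝓝 m, ∃ s₀ : ℝ, 0 < s₀ ∧ ∀ s : ℝ, 0 < s → s ≤ s₀ → ∀ ξ,
        ∃ m' ∈ U, ∃ q : ℝ, 0 < q ∧ ∀ z, m'.1.1 z = (q * Real.exp (s * φ ξ z)) • m.1.1 z) ∧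
      ∀ m : Mt Γ D, ∀ ψ ∈ Test Γ, ∀ s : ℝ, 0 < s → s ≤ 1 →
        (∀ᵐ ξ ∂(Measure.infinitePi fun _ : ℕ × (ℤ × ℤ) => (volume : Measure I)), ∀ m' : Mt Γ D,
          (∃ q : ℝ, 0 < q ∧ ∀ z, m'.1.1 z = (q * Real.exp (ψ z + s * φ ξ z)) • m.1.1 z) →
          (∀ k : ℕ, 0 < x m' (k + 1) - x m' k) ∧
            ∀ᶠ k : ℕ in atTop, a k ≤ x m' (k + 1) - x m' k) ∧
        (∃ C : ℝ, 0 < C ∧ ∀ (k : ℕ) (ε : ℝ), 0 < ε → ENNReal.ofReal (a k) *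
          Pr φ m ψ s (fun m' => x m' (k + 1) - x m' k < ε) ≤ ENNReal.ofReal (C * ε)) ∧
        (∀ Λ : ℝ, ∃ C : ℝ, 0 < C ∧
          (∀ A : Set ℝ, MeasurableSet A → A ⊆ Icc 0 Λ →
            ∑' j : ℕ, Pr φ m ψ s (fun m' => x m' (j + 1) ∈ A) ≤ ENNReal.ofReal C * volume A) ∧
          ∀ A : Set (ℝ × ℝ), MeasurableSet A → A ⊆ Icc 0 Λ ×ˢ Icc 0 Λ →
            ∑' (j : ℕ) (l : ℕ), Pr φ m ψ s (fun m' => (x m' (j + 1), x m' (j + l + 2)) ∈ A) ≤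
              ∫⁻ z in A, ENNReal.ofReal (C * |z.2 - z.1|)) ∧
        ∀ k : ℕ, ∃ C : ℝ, 0 < C ∧
          (∀ A : Set ℝ, MeasurableSet A →
            Pr φ m ψ s (fun m' => x m' (k + 1) - x m' k ∈ A) ≤
              ∫⁻ t in A, ENNReal.ofReal (C * |t|)) ∧
          ∀ ε : ℝ, 0 < ε →
            Pr φ m ψ s (fun m' => x m' (k + 1) - x m' k < ε) ≤ ENNReal.ofReal (C * ε ^ 2) ∧
            Pr φ m ψ s (fun m' => x m' (k + 2) - x m' k < ε) ≤ ENNReal.ofReal (C * ε ^ 5) := by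
  obtain ⟨L, hL⟩ : ∃ L : ℕ, D ⊆ bigSq L := by
    obtain ⟨R, hR⟩ := hX.bdd.subset_closedBall (0 : Pl)
    obtain ⟨L, hL⟩ := exists_nat_gt R
    refine ⟨L, fun z hz => ?_⟩
    have h1 := hR hz
    rw [mem_closedBall_zero_iff, Prod.norm_def, max_le_iff, Real.norm_eq_abs, Real.norm_eq_abs,
      abs_le, abs_le] at h1
    exact ⟨⟨by linarith [h1.1.1], by linarith [h1.1.2]⟩, ⟨by linarith [h1.2.1],
      by linarith [h1.2.2]⟩⟩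
  obtain ⟨c, hc, hphi, h⟩ := LibQR35.ae_gap2 hX hL ha
  refine ⟨phi Γ L c, hphi, fun z => SML_meas hX L hc z, fun m U hU => SML_near hX L hc m hU,
    fun m ψ hψ s hs0 hs1 => ⟨(h m ψ hψ s hs0 hs1).1, (h m ψ hψ s hs0 hs1).2, ?_⟩⟩
  have hcs := FIN2_scale hc hs0 hs1
  have hphis : ∀ ξ : Dir → I, phi Γ L (fun R => s * c R) ξ ∈ Test Γ :=
    fun ξ => phi_mem hX L hcs ξ
  set Φ : (Dir → I) → TestS Γ := fun ξ => ⟨ψ, hψ⟩ + ⟨phi Γ L (fun R => s * c R) ξ, hphis ξ⟩ with hΦ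
  have hΦ' : ∀ ξ z, (Φ ξ).1 z = (⟨ψ, hψ⟩ : TestS Γ).1 z + phi Γ L (fun R => s * c R) ξ z :=
    fun ξ z => rfl
  have hPr : ∀ (E : Mt Γ D → Prop), Pr (phi Γ L c) m ψ s E ≤
      Pool.BGR.PM Dir {ξ | ∃ m' : Mt Γ D, (∃ q : ℝ, 0 < q ∧
        ∀ z, m'.1.1 z = (q * Real.exp ((Φ ξ).1 z)) • m.1.1 z) ∧ E m'} := by
    intro E
    refine measure_mono ?_
    rintro ξ ⟨m', ⟨q, hq, hm'⟩, hE⟩
    refine ⟨m', ⟨q, hq, fun z => ?_⟩, hE⟩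
    rw [hm' z, hΦ', FIN2_phi]
  have e1 := LibQR35.one_prob hX m hL hcs ⟨ψ, hψ⟩ Φ hΦ'
  have e2 := LibQR35.pair_prob2 hX m hL hcs ⟨ψ, hψ⟩ Φ hΦ'
  refine ⟨fun Λ => ?_, fun k => ?_⟩
  · obtain ⟨C₁, hC₁, h1⟩ := LibQR35.one_point hX m L hcs Φ ⟨ψ, hψ⟩ hΦ'
      (fun k => LibQR35.XL_one hX m L hcs Φ ⟨ψ, hψ⟩ hΦ' k (e1 k)) Λ
    obtain ⟨C₂, hC₂, h2⟩ := LibQR35.two_point hX m L hcs Φ ⟨ψ, hψ⟩ hΦ'
      (fun j l => LibQR35.XL_two2 hX m L hcs Φ ⟨ψ, hψ⟩ hΦ' j (l + 1) (e2 j (l + 1)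
        l.succ_pos)) Λ
    refine ⟨C₁ + C₂, by positivity, fun A hA hA' => ?_, fun A hA hA' => ?_⟩
    · refine (ENNReal.tsum_le_tsum fun j => (hPr _).trans (measure_mono ?_)).trans
        ((h1 A hA hA').trans ?_)
      · rintro ξ ⟨m', ⟨q, hq, hm'⟩, hE⟩
        change LibQR35.lvX hX m (Φ ξ) j ∈ A
        rw [(LibQR35.nu_x hX m m' (Φ ξ) hq hm' j).1] at hE
        exact hE
      · gcongr
        linarith
    · refine (ENNReal.tsum_le_tsum fun j => ENNReal.tsum_le_tsum fun l =>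
        (hPr _).trans (measure_mono ?_)).trans ((h2 A hA hA').trans ?_)
      · rintro ξ ⟨m', ⟨q, hq, hm'⟩, hE⟩
        change (LibQR35.lvX hX m (Φ ξ) j, LibQR35.lvX hX m (Φ ξ) (j + l + 1)) ∈ A
        rw [(LibQR35.nu_x hX m m' (Φ ξ) hq hm' j).1,
          show x m' (j + l + 2) = x m' (j + l + 1 + 1) from rfl,
          (LibQR35.nu_x hX m m' (Φ ξ) hq hm' (j + l + 1)).1] at hE
        exact hE
      · refine lintegral_mono fun z => ENNReal.ofReal_le_ofReal ?_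
        exact mul_le_mul_of_nonneg_right (by linarith) (abs_nonneg _)
  · obtain ⟨C₁, hC₁, h1⟩ := LibQR35.G_levels hX m hcs ⟨ψ, hψ⟩ Φ hΦ' (n := 1) (d := 2) one_pos
      (fun k => LibQR35.gap_prob hX m hL hcs ⟨ψ, hψ⟩ Φ hΦ' k (n := 2) two_pos
        (LibQR35.G_indep2 hX m) LibQR35.G_B2 LibQR35.G_par2) k
    obtain ⟨C₂, hC₂, h2⟩ := LibQR35.G_levels hX m hcs ⟨ψ, hψ⟩ Φ hΦ' (n := 2) (d := 5) two_pos
      (fun k => LibQR35.gap_prob hX m hL hcs ⟨ψ, hψ⟩ Φ hΦ' k (n := 3) three_pos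
        (LibQR35.G_indep3 hX m) LibQR35.G_B3 LibQR35.G_par3) k
    obtain ⟨C₃, hC₃, h3⟩ := LibQR35.XL_S hX m L hcs Φ ⟨ψ, hψ⟩ hΦ' e1
      (fun k => e2 k 1 one_pos) k
    refine ⟨C₁ + C₂ + C₃, by positivity, fun A hA => ?_, fun ε hε => ⟨?_, ?_⟩⟩
    · refine (hPr _).trans ((h3 A hA).trans ?_)
      refine lintegral_mono fun z => ENNReal.ofReal_le_ofReal ?_
      exact mul_le_mul_of_nonneg_right (by linarith) (abs_nonneg _)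
    · refine (hPr _).trans ((h1 ε hε).trans (ENNReal.ofReal_le_ofReal ?_))
      exact mul_le_mul_of_nonneg_right (by linarith) (by positivity)
    · refine (hPr _).trans ((h2 ε hε).trans (ENNReal.ofReal_le_ofReal ?_))
      exact mul_le_mul_of_nonneg_right (by linarith) (by positivity)

end Pool.Agent.Results.MP_a825e8_mp.QuadraticRepulsion
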